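import Mathlib
import Pool.Agent.H410R3.AX.Defs
import Pool.Agent.H410R3.AX.Bwd3
import Pool.Agent.Y567.MD.E0

/-!
# `E_0` and conjugacy of Axiom A diffeomorphisms of the torus with four nonwandering points

The family of the starting file `E0AxiomATorus` depends continuously on the point of `2^ℕ`, and all
its members have the same nonwandering set, which consists of four fixed points.  So `E_0` is
continuously reducible to topological conjugacy of such diffeomorphisms, and no Borel function with
values in a standard Borel space is a complete invariant for topological conjugacy of them.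
-/

open scoped Manifold ContDiff
open Pool.Agent.H410R3.AX Pool.Agent.H410R3.KS
open Pool.Agent.Helper114.AB (T1 EM)

namespace Pool.Agent.Results.MP_e91f84_lc.E0FourPoints

section Definitions

variable {E H : Type} [NormedAddCommGroup E] [NormedSpace ℝ E] [FiniteDimensional ℝ E]
  [TopologicalSpace H]
  (I : ModelWithCorners ℝ E H) {M : Type} [TopologicalSpace M] [ChartedSpace H M]

/-- The Axiom A diffeomorphisms of class `C^∞` whose nonwandering set is `F` and consists of fixed
points. -/
def AxFix [IsManifold I ∞ M] (F : Set M) : Set (DiffR I M ⊤) :=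
  {f | AxiomA I f ∧ nonwandering f.map = F ∧ ∀ z ∈ F, f.map z = z}

/-- There is a continuous map `φ` from `2^ℕ` to `AxFix F` with the `C^∞` topology such that `x E_0 y`
if and only if `φ x` and `φ y` are topologically conjugate. -/
def E0ContEmbeds [IsManifold I ∞ M] (F : Set M) : Prop :=
  ∃ φ : (ℕ → Bool) → DiffR I M ⊤,
    @Continuous (ℕ → Bool) (DiffR I M ⊤) _ (crTopology I M ⊤) φ ∧
    (∀ x, φ x ∈ AxFix I F) ∧ ∀ x y, E0 x y ↔ TopConj (φ x).map (φ y).map

/-- No Borel function on `AxFix F` with values in a countably separated measurable space `Y`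
(for instance a standard Borel space) is a complete invariant for topological conjugacy. -/
def NotClassifiable [IsManifold I ∞ M] (F : Set M) : Prop :=
  ∀ (Y : Type) [MeasurableSpace Y] [MeasurableSpace.CountablySeparated Y] (h : AxFix I F → Y),
    @Measurable (AxFix I F) Y
      (@borel _ (@instTopologicalSpaceSubtype (DiffR I M ⊤) (· ∈ AxFix I F) (crTopology I M ⊤))) _ h →
    ¬ ∀ f g : AxFix I F, TopConj f.1.map g.1.map ↔ h f = h g

variable (M) in
/-- There is a set `F` of exactly four points of `M` with both properties. -/
def FourPoints [IsManifold I ∞ M] : Prop :=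
  ∃ F : Set M, F.ncard = 4 ∧ E0ContEmbeds I F ∧ NotClassifiable I F

end Definitions

theorem notClassifiable_of {E H : Type} [NormedAddCommGroup E] [NormedSpace ℝ E]
    [FiniteDimensional ℝ E] [TopologicalSpace H]
    (I : ModelWithCorners ℝ E H) {M : Type} [TopologicalSpace M] [ChartedSpace H M]
    [IsManifold I ∞ M] (F : Set M) (hF : E0ContEmbeds I F) : NotClassifiable I F := by
  obtain ⟨φ, hφ, h1, h2⟩ := hF
  intro Y _ _ h hh hc
  obtain ⟨ι, hι, hιi⟩ := MeasurableSpace.measurable_injection_nat_bool_of_countablySeparated Y
  let _ : TopologicalSpace (DiffR I M ⊤) := crTopology I M ⊤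
  let φ' : (ℕ → Bool) → AxFix I F := fun x => ⟨φ x, h1 x⟩
  have hφ' : Continuous φ' := hφ.subtype_mk h1
  have hm : @Measurable (ℕ → Bool) (AxFix I F) (borel (ℕ → Bool)) (borel (AxFix I F)) φ' :=
    hφ'.borel_measurable
  rw [← BorelSpace.measurable_eq (α := ℕ → Bool)] at hm
  have hm2 : Measurable (fun x => ι (h (φ' x))) :=
    hι.comp (@Measurable.comp _ _ _ _ (borel (AxFix I F)) _ _ _ hh hm)
  refine Pool.Agent.Y567.MD.e0_not_smooth ⟨fun x => ι (h (φ' x)), hm2, fun x y => ?_⟩
  rw [hιi.eq_iff, ← hc (φ' x) (φ' y)]
  exact (h2 x y).symm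

theorem Fx_ncard : Fx.ncard = 4 := by
  have h1 : Fx = ({0, hf} : Set T1) ×ˢ ({0, hf} : Set T1) := by
    ext z
    simp [Fx, Set.mem_prod]
  rw [h1, Set.ncard_prod, Set.ncard_pair zero_ne_half]

theorem isManifoldT : IsManifold II ∞ CC := inferInstance

/-- Let `M = CC` be the torus `Circle × Circle`, with the product `II` of two copies of the model with
corners of `Circle`.  There is a set `F` of exactly four points of `M` such
that `E_0` is reducible by a continuous map `2^ℕ → Diff^∞(M)` to topological conjugacy of the
Axiom A diffeomorphisms of `M` whose nonwandering set is `F` and consists of fixed points, and no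
Borel function with values in a standard Borel space is a complete invariant for topological
conjugacy of these diffeomorphisms. -/
theorem result : @FourPoints _ _ _ _ _ II CC _ _ isManifoldT := by
  have hfix : ∀ x, nonwandering (fam x).map = EM.symm ⁻¹' Fx := by
    intro x
    rw [fam_nw]
    ext z
    exact fam_fix_iff x z
  have hc : E0ContEmbeds II (EM.symm ⁻¹' Fx) :=
    ⟨fam, fam_cont, fun x => ⟨fam_axiomA x, hfix x, fun z hz => (fam_fix_iff x z).2 hz⟩, E0_iff⟩
  refine ⟨EM.symm ⁻¹' Fx, ?_, hc, notClassifiable_of II _ hc⟩
  rw [← Fx_ncard]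
  exact Set.ncard_preimage_of_injective_subset_range EM.symm.injective
    (fun z _ => ⟨EM z, EM.symm_apply_apply z⟩)

end Pool.Agent.Results.MP_e91f84_lc.E0FourPoints
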